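import Pool.Agent.W555.KS.Defs

/-!
# Project KS, second part: generic initial ideals, symmetric shifting, cyclic polytopes,
balanced shifting; characteristic 2 to characteristic 0.
-/

set_option autoImplicit false

namespace Pool.Agent.W555.KS

open Finset MvPolynomial

/-! ### symmetric algebraic shifting -/

/-- degree reverse lexicographic order with `x_0 > x_1 > ...`: `RevLT m m'` means `m < m'` -/
def RevLT {n : ℕ} (m m' : Fin n →₀ ℕ) : Prop :=
  m.degree < m'.degree ∨ (m.degree = m'.degree ∧ ∃ j, m' j < m j ∧ ∀ i, j < i → m i = m' i)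

/-- the monomials of the initial ideal of `J`: leading monomials of the elements of `J` -/
def inSet {n : ℕ} {k : Type*} [Field k] (J : Ideal (MvPolynomial (Fin n) k)) :
    Set (Fin n →₀ ℕ) :=
  {m | ∃ f ∈ J, coeff m f ≠ 0 ∧ ∀ m' ∈ f.support, m' ≠ m → RevLT m' m}

/-- the linear substitution `x_i ↦ ∑_j g_ij x_j` -/
noncomputable def subst {n : ℕ} {k : Type*} [Field k] (g : Fin n × Fin n → k) :
    MvPolynomial (Fin n) k →ₐ[k] MvPolynomial (Fin n) k :=
  aeval (fun i => lf (fun j => g (i, j)))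

/-- `I` written in the coordinates `y_i = ∑_j g_ij x_j`: all `f` with `f(y) ∈ I`. For invertible `g`
this is the image of `I` under the automorphism inverse to `subst g` -/
noncomputable def coordI {n : ℕ} {k : Type*} [Field k] (g : Fin n × Fin n → k)
    (I : Ideal (MvPolynomial (Fin n) k)) : Ideal (MvPolynomial (Fin n) k) :=
  I.comap (subst g)

/-- the monomials of the generic initial ideal (degree reverse lexicographic order): those which
are in the initial ideal of `g I` for all invertible `g` outside a proper hypersurface -/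
def ginSet {n : ℕ} {k : Type*} [Field k] (I : Ideal (MvPolynomial (Fin n) k)) :
    Set (Fin n →₀ ℕ) :=
  {m | ∃ F : MvPolynomial (Fin n × Fin n) k, F ≠ 0 ∧ ∀ g : Fin n × Fin n → k,
    (Matrix.of (fun i j => g (i, j))).det ≠ 0 → eval g F ≠ 0 → m ∈ inSet (coordI g I)}

/-- the sorted list of the indices of the variables of `m`, with multiplicity -/
noncomputable def idxList {n : ℕ} (m : Fin n →₀ ℕ) : List ℕ :=
  (Multiset.map (fun i : Fin n => (i : ℕ)) (Finsupp.toMultiset m)).sort (· ≤ ·)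

/-- `φ(m)`: the `i`-th smallest index (counted from `0`) is increased by `i` -/
noncomputable def phi {n : ℕ} (m : Fin n →₀ ℕ) : Finset ℕ :=
  univ.image (fun i : Fin (idxList m).length => (idxList m).get i + (i : ℕ))

/-- symmetric algebraic shifting of `K` (vertices `0, ..., n-1`) -/
def shift {n : ℕ} (k : Type*) [Field k] (K : Finset (Finset (Fin n))) : Set (Finset ℕ) :=
  {S | ∃ m : Fin n →₀ ℕ, m ∉ ginSet (srI k K) ∧ (∀ x ∈ phi m, x < n) ∧ S = phi m}

open Classical in
/-- the boundary complex of the cyclic `d`-polytope with vertices `(i, i^2, ..., i^d)`, `i < n`: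
proper subsets `S` which are the set of vertices on a supporting hyperplane -/
noncomputable def cyc (n d : ℕ) : Finset (Finset (Fin n)) :=
  univ.filter (fun S => S ≠ univ ∧ ∃ a : Fin d → ℝ, ∃ c : ℝ,
    (∀ i ∈ S, ∑ j : Fin d, a j * ((i : ℕ) : ℝ) ^ ((j : ℕ) + 1) = c) ∧
    (∀ i : Fin n, i ∉ S → ∑ j : Fin d, a j * ((i : ℕ) : ℝ) ^ ((j : ℕ) + 1) < c))

/-! ### characteristic 2 to characteristic 0 -/

/-- KS-SPAN -/
def StSpan : Prop := ∀ (ι N m : Type) [Fintype ι] [Fintype N] [Fintype m]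
  (A : N → m → MvPolynomial ι ℤ),
  (∀ w : m → FractionRing (MvPolynomial ι (ZMod 2)),
    w ∈ Submodule.span (FractionRing (MvPolynomial ι (ZMod 2)))
      (Set.range (fun i : N => fun j : m => algebraMap (MvPolynomial ι (ZMod 2))
        (FractionRing (MvPolynomial ι (ZMod 2)))
        (MvPolynomial.map (Int.castRingHom (ZMod 2)) (A i j))))) →
  ∃ F : MvPolynomial ι ℤ, F ≠ 0 ∧ ∀ (k : Type) [Field k] (c : ι → k), aeval c F ≠ 0 →
    ∀ w : m → k, w ∈ Submodule.span k (Set.range (fun i : N => fun j : m => aeval c (A i j)))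

/-- KS-SPEC: the Lefschetz type theorem over fields of characteristic zero -/
def StSpec : Prop := ∀ (n d : ℕ) (L : Finset (Finset (Fin n))), IsCx L → ConeEmb L d →
  ∀ r : ℕ, d < 2 * r → ∃ F : MvPolynomial (Fin (d + 1) × Fin n) ℤ, F ≠ 0 ∧
    ∀ (k : Type) [Field k] [CharZero k] (c : Fin (d + 1) × Fin n → k), aeval c F ≠ 0 →
      ∀ p : MvPolynomial (Fin n) k, p.IsHomogeneous r →
        p ∈ srI k L ⊔
          Ideal.span (Set.range (fun i : Fin d => lf (fun v => c (i.castSucc, v)))) ⊔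
          Ideal.span {lf (fun v => c (Fin.last d, v)) ^ (2 * r - d)}

/-! ### shifting -/

/-- exponent vectors `m` with `2 (degree in the first n-d variables) ≤ d + (exponent of x_(n-d-1))`
(the last `d` variables are the parameters, `x_(n-d-1)` is the Lefschetz element) -/
def Allowed (n d : ℕ) (m : Fin n →₀ ℕ) : Prop :=
  2 * (∑ i ∈ (univ : Finset (Fin n)).filter (fun i : Fin n => (i : ℕ) + d < n), m i)
    ≤ d + ∑ i ∈ (univ : Finset (Fin n)).filter (fun i : Fin n => (i : ℕ) + d + 1 = n), m i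

/-- KS-G1 -/
def StG1 : Prop := ∀ (k : Type) [Field k] [CharZero k] (n d : ℕ) (L : Finset (Finset (Fin n))),
  d < n → IsCx L → ConeEmb L d → ∀ m : Fin n →₀ ℕ, ¬ Allowed n d m → m ∈ ginSet (srI k L)

/-- KS-G2: shifting does not decrease the number of faces -/
def StG2 : Prop := ∀ (k : Type) [Field k] [CharZero k] (n j : ℕ) (K : Finset (Finset (Fin n))),
  IsCx K → ∃ F : MvPolynomial (Fin n × Fin n) k, F ≠ 0 ∧ ∀ g : Fin n × Fin n → k,
    (Matrix.of (fun i j => g (i, j))).det ≠ 0 → eval g F ≠ 0 →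
    (K.filter (fun σ => σ.card = j)).card ≤
      {m : Fin n →₀ ℕ | m.degree = j ∧ (∀ i ∈ m.support, (i : ℕ) + j ≤ n) ∧
        m ∉ inSet (coordI g (srI k K))}.ncard

/-- KS-G3: counting the allowed monomials -/
def StG3 : Prop := ∀ (n d j : ℕ), j < d → d < n →
  {m : Fin n →₀ ℕ | m.degree = j + 1 ∧ (∀ i ∈ m.support, (i : ℕ) + (j + 1) ≤ n) ∧
    Allowed n d m}.ncard ≤ Bd n d (d - j) (j + 1)

/-- KS-PHI -/
def StPhi : Prop := ∀ (n : ℕ) (m : Fin n →₀ ℕ), (∀ x ∈ phi m, x < n) →
  ∀ i ∈ m.support, (i : ℕ) + m.degree ≤ n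

/-- KS-CYC: the boundary of the cyclic polytope embeds in the sphere -/
def StCyc : Prop := ∀ (n d : ℕ), 1 ≤ d → d < n → IsCx (cyc n d) ∧ ConeEmb (cyc n d) d

/-- KS-DD: final assembly for MP_dd083e_co -/
def StDD : Prop := ∀ (k : Type) [Field k] [CharZero k] (n d : ℕ) (L : Finset (Finset (Fin n))),
  1 ≤ d → d < n → IsCx L → ConeEmb L d → shift k L ⊆ shift k (cyc n d)

/-! ### balanced shifting -/

/-- the complex is balanced with colour classes `κ⁻¹ i`: no edge inside a class -/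
def Balanced {n δ : ℕ} (K : Finset (Finset (Fin n))) (κ : Fin n → Fin (δ + 1)) : Prop :=
  ∀ u v : Fin n, u ≠ v → ({u, v} : Finset (Fin n)) ∈ K → κ u ≠ κ v

/-- number of smaller vertices of the same colour -/
def crank {n δ : ℕ} (κ : Fin n → Fin (δ + 1)) (v : Fin n) : ℕ :=
  (univ.filter (fun w => κ w = κ v ∧ w < v)).card

/-- the order of `Fin n` is `(2, ..., 2)`-admissible -/
def Adm2 {n δ : ℕ} (κ : Fin n → Fin (δ + 1)) : Prop :=
  ∀ u v : Fin n, v < u → crank κ u < 2 → crank κ v < 2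

/-- the linear forms `θ_v = ∑_(w of the colour of v) Θ_vw x_w` -/
noncomputable def thetaB {n δ : ℕ} (κ : Fin n → Fin (δ + 1)) {k : Type*} [Field k]
    (Θ : Fin n × Fin n → k) (v : Fin n) : MvPolynomial (Fin n) k :=
  ∑ w ∈ univ.filter (fun w => κ w = κ v), C (Θ (v, w)) * X w

/-- lexicographic order on finsets: the smallest element of the symmetric difference is in `F` -/
def LexLT {n : ℕ} (F G : Finset (Fin n)) : Prop :=
  ∃ x ∈ F, x ∉ G ∧ ∀ y, y < x → (y ∈ F ↔ y ∈ G)

/-- balanced shifting with the matrices `Θ`: `F` (at most one vertex of each colour) is kept iff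
`θ_F` is not in the span of the `θ_G` with `G` of the same colours and lexicographically smaller,
in the Stanley-Reisner ring -/
def bshift {n δ : ℕ} (κ : Fin n → Fin (δ + 1)) (k : Type*) [Field k] (Θ : Fin n × Fin n → k)
    (K : Finset (Finset (Fin n))) : Set (Finset (Fin n)) :=
  {F | Set.InjOn κ (F : Set (Fin n)) ∧
    (Ideal.Quotient.mk (srI k K) (∏ v ∈ F, thetaB κ Θ v)) ∉
      Submodule.span k {y | ∃ G : Finset (Fin n), Set.InjOn κ (G : Set (Fin n)) ∧
        G.image κ = F.image κ ∧ LexLT G F ∧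
        y = Ideal.Quotient.mk (srI k K) (∏ v ∈ G, thetaB κ Θ v)}}

/-- contains the join of `δ + 1` copies of three points -/
def Contains3 {n : ℕ} (δ : ℕ) (Q : Set (Finset (Fin n))) : Prop :=
  ∃ e : Fin (δ + 1) × Fin 3 → Fin n, Function.Injective e ∧
    ∀ s : Fin (δ + 1) → Fin 3, univ.image (fun i => e (i, s i)) ∈ Q

/-- KS-BAL2: generic coloured forms in characteristic 2 -/
def StBal2 : Prop := ∀ (n δ : ℕ) (K : Finset (Finset (Fin n))) (κ : Fin n → Fin (δ + 1)),
  IsCx K → ConeEmb K (2 * δ + 1) →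
  ∀ w : Fin (δ + 1) → Fin n, (∀ i, κ (w i) = i) →
    (∏ i, X (w i) : MvPolynomial (Fin n) (FractionRing (MvPolynomial
        ((Fin (δ + 1) × Fin 2) × Fin n) (ZMod 2)))) ∈
      srI _ K ⊔ Ideal.span (Set.range (fun ij : Fin (δ + 1) × Fin 2 =>
        ∑ v ∈ univ.filter (fun v => κ v = ij.1),
          C (algebraMap (MvPolynomial ((Fin (δ + 1) × Fin 2) × Fin n) (ZMod 2))
            (FractionRing (MvPolynomial ((Fin (δ + 1) × Fin 2) × Fin n) (ZMod 2))) (X (ij, v)))
            * X v))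

/-- KS-BAL0: the same over fields of characteristic zero -/
def StBal0 : Prop := ∀ (n δ : ℕ) (K : Finset (Finset (Fin n))) (κ : Fin n → Fin (δ + 1)),
  IsCx K → ConeEmb K (2 * δ + 1) →
  ∃ F : MvPolynomial ((Fin (δ + 1) × Fin 2) × Fin n) ℤ, F ≠ 0 ∧
    ∀ (k : Type) [Field k] [CharZero k] (c : (Fin (δ + 1) × Fin 2) × Fin n → k), aeval c F ≠ 0 →
      ∀ w : Fin (δ + 1) → Fin n, (∀ i, κ (w i) = i) →
        ∃ q : Fin (δ + 1) × Fin 2 → MvPolynomial (Fin n) k,
          (∀ ij, q ij ∈ Submodule.span k {y | ∃ u : Fin (δ + 1) → Fin n, (∀ i, κ (u i) = i) ∧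
            y = ∏ i ∈ univ.erase ij.1, X (u i)}) ∧
          ∏ i, X (w i) - ∑ ij, q ij * (∑ v ∈ univ.filter (fun v => κ v = ij.1), C (c (ij, v)) * X v)
            ∈ srI k K

/-- KS-BAL: final statement for MP_55fadc_co -/
def StBal : Prop := ∀ (k : Type) [Field k] [CharZero k] (n δ : ℕ) (K : Finset (Finset (Fin n)))
  (κ : Fin n → Fin (δ + 1)), IsCx K → Balanced K κ → ConeEmb K (2 * δ + 1) → Adm2 κ →
  ∃ P : MvPolynomial (Fin n × Fin n) k, P ≠ 0 ∧ ∀ Θ : Fin n × Fin n → k, eval Θ P ≠ 0 →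
    ¬ Contains3 δ (bshift κ k Θ K)

end Pool.Agent.W555.KS
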