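import Pool.Agent.W555.KS.Fin1
import Pool.Agent.W253.KS.Ev
import Pool.Agent.W975.KS.EmbR
import Pool.Agent.W837.KS.Exp
import Pool.Agent.W837.KS.Pn
import Pool.Agent.W101.KS.PL
import Pool.Agent.W655.KS.Algo
import Pool.Agent.W646.KS.T1
import Pool.Agent.W349.KS.T1EO
import Pool.Agent.W646.KS.Ind
import Pool.Agent.W374.KS.Min
import Pool.Agent.W460.KS.T2C
import Pool.Agent.W977.KS.T2
import Pool.Agent.W563.KS.DStep
import Pool.Agent.W839.KS.DTop1
import Pool.Agent.W925.KS.DTop2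
import Pool.Agent.W386.KS.DLow
import Pool.Agent.W386.KS.Supp
import Pool.Agent.W410.KalSar.GCnt
import Pool.Agent.W682.KS.GNum
import Pool.Agent.W357.KS.Fan
import Pool.Agent.W500.KS.Alg

/-!
Assembly of the facts of project KS.
-/

set_option autoImplicit false

namespace Pool.Agent.W555.KS

theorem halg' : StAlg := W500.KS.alg W837.KS.pn W101.KS.PL.pl W253.KS.ev

theorem t1' : StT1 := W646.KS.t1 W837.KS.exp
theorem t1e' (halg : StAlg) : StT1E := W349.KS.t1e t1' halg
theorem t1o' (halg : StAlg) : StT1O := W349.KS.t1o t1' (W655.KS.algo halg)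
theorem t2c' (hfan : StFan) (halg : StAlg) : StT2C :=
  W460.KS.t2c hfan W253.KS.cone (t1e' halg) W646.KS.ind
theorem t2' (hfan : StFan) (halg : StAlg) : StT2 :=
  W977.KS.t2 hfan (t1e' halg) (t1o' halg) W646.KS.ind (t2c' hfan halg)
theorem dtop' (hfan : StFan) (halg : StAlg) : StDTop :=
  W925.KS.dtop (W839.KS.DTop1.dtop1 W374.KS.minor) (W925.KS.dtop2 (t2' hfan halg))

end Pool.Agent.W555.KS
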