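import Pool.Agent.W555.KS.Defs

/-!
Assembly of `S11781` from the parts of project KS.
-/

set_option autoImplicit false

namespace Pool.Agent.W555.KS

open Finset MvPolynomial

theorem Bd_zero_right (n d : ℕ) : ∀ j, Bd n d j 0 = 1
  | 0 => by simp [Bd, Nh]
  | j + 1 => by rw [Bd]; exact Bd_zero_right n d j

theorem dimQ_le (hstep : StDStep) (htop : StDTop) (n d : ℕ) (L : Finset (Finset (Fin n)))
    (hdn : d < n) (hL : IsCx L) (hE : ConeEmb L d) :
    ∀ i, i ≤ d → ∀ r, dimQ (Ij n d (d - i) L) r ≤ Bd n d i r := by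
  intro i
  induction i with
  | zero =>
    intro _ r
    rw [Nat.sub_zero, Bd]
    exact htop n d L hdn hL hE r
  | succ i ih =>
    intro hi r
    have hj : d - (i + 1) < d := by omega
    have hj1 : d - (i + 1) + 1 = d - i := by omega
    obtain ⟨h1, h2⟩ := hstep n d (d - (i + 1)) L hj
    induction r with
    | zero => rw [Bd_zero_right]; exact h2
    | succ r ihr =>
      have h3 := h1 r
      rw [hj1] at h3
      have h4 := ih (by omega) (r + 1)
      rw [Bd]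
      omega

theorem faces_le (hstep : StDStep) (htop : StDTop) (hlow : StDLow) (hnum : StGNum) (hcnt : StGCnt)
    (n d : ℕ) (L : Finset (Finset (Fin n)))
    (hdn : d < n) (hL : IsCx L) (hE : ConeEmb L d) (j : ℕ) (hj : j < d) :
    (L.filter (fun σ => σ.card = j + 1)).card ≤
      {S : Finset ℕ | S ⊆ range n ∧ S.card = j + 1 ∧ Gale n d S}.ncard := by
  have h1 := hlow n d j L hL hj.le
  have h2 := dimQ_le hstep htop n d L hdn hL hE (d - j) (by omega) (j + 1)
  have h3 : d - (d - j) = j := by omega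
  rw [h3] at h2
  exact h1.trans (h2.trans ((hnum n d j hj hdn).trans (hcnt n d (j + 1))))

theorem main1 (hEmb : StEmbR) (hstep : StDStep) (htop : StDTop) (hlow : StDLow) (hnum : StGNum)
    (hcnt : StGCnt) (hall : StGAll) (hsupp : StSupp) :
    ∀ d r n : ℕ, 1 ≤ d → d ≤ r → r ≤ 2 * d → r + 1 ≤ n →
    ∀ K : Finset (Finset (Fin n)),
      (∀ σ ∈ K, ∀ τ : Finset (Fin n), τ ⊆ σ → τ.Nonempty → τ ∈ K) →
      (∀ σ ∈ K, σ.Nonempty ∧ σ.card ≤ d + 1) →
      (∃ σ ∈ K, σ.card = d + 1) →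
      (∀ i : Fin n, ({i} : Finset (Fin n)) ∈ K) →
      (∃ f : (Fin n → ℝ) → EuclideanSpace ℝ (Fin r),
        ContinuousOn f {x : Fin n → ℝ | (∀ i, 0 ≤ x i) ∧ ∑ i, x i = 1 ∧
            ∃ σ ∈ K, ∀ i, i ∉ σ → x i = 0} ∧
        Set.InjOn f {x : Fin n → ℝ | (∀ i, 0 ≤ x i) ∧ ∑ i, x i = 1 ∧
            ∃ σ ∈ K, ∀ i, i ∉ σ → x i = 0}) →
      ∀ k : ℕ, 1 ≤ k → k ≤ d →
        {σ : Finset (Fin n) | σ ∈ K ∧ σ.card = k + 1}.ncard ≤
        {S : Finset (Fin n) | S.card = k + 1 ∧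
          ∃ a : Fin (r + 1) → ℝ, ∃ c : ℝ,
            (∀ i ∈ S, ∑ j : Fin (r + 1), a j * ((i : ℕ) : ℝ) ^ ((j : ℕ) + 1) = c) ∧
            (∀ i : Fin n, i ∉ S →
              ∑ j : Fin (r + 1), a j * ((i : ℕ) : ℝ) ^ ((j : ℕ) + 1) < c)}.ncard := by
  intro d r n hd hdr hr hn K hK1 hK2 _ _ hf k hk1 hkd
  have hfin : ∀ P : Finset (Fin n) → Prop, {S : Finset (Fin n) | P S}.Finite :=
    fun P => Set.toFinite _
  rcases Nat.lt_or_ge (r + 1) n with hlt | hge
  · obtain ⟨hL, hE⟩ := hEmb n r K hK1 (fun σ hσ => (hK2 σ hσ).1) hf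
    have h1 := faces_le hstep htop hlow hnum hcnt n (r + 1) (insert ∅ K) hlt hL hE k (by omega)
    have h2 : {σ : Finset (Fin n) | σ ∈ K ∧ σ.card = k + 1}.ncard ≤
        ((insert ∅ K).filter (fun σ => σ.card = k + 1)).card := by
      rw [← Set.ncard_coe_finset]
      refine Set.ncard_le_ncard ?_ (Set.toFinite _)
      rintro σ ⟨h, h'⟩
      simp only [coe_filter, mem_insert, Set.mem_setOf_eq]
      exact ⟨Or.inr h, h'⟩
    refine h2.trans (h1.trans ?_)
    -- transfer Finset ℕ to Finset (Fin n)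
    let φ : Finset ℕ → Finset (Fin n) := fun S => univ.filter (fun i : Fin n => (i : ℕ) ∈ S)
    have himg : ∀ S : Finset ℕ, S ⊆ range n → (φ S).image (fun i : Fin n => (i : ℕ)) = S := by
      intro S hS
      ext x
      simp only [φ, mem_image, mem_filter, mem_univ, true_and]
      constructor
      · rintro ⟨i, hi, rfl⟩; exact hi
      · intro hx
        exact ⟨⟨x, mem_range.mp (hS hx)⟩, hx, rfl⟩
    refine Set.ncard_le_ncard_of_injOn φ ?_ ?_ (hfin _)
    · rintro S ⟨hS, hc, hG⟩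
      have hi := himg S hS
      refine ⟨?_, ?_⟩
      · rw [← hc, ← hi, card_image_of_injective _ Fin.val_injective, hi]
      · refine hsupp n (r + 1) (φ S) ?_
        rw [hi]; exact hG
    · rintro S ⟨hS, _, _⟩ S' ⟨hS', _, _⟩ h
      rw [← himg S hS, ← himg S' hS', h]
  · have hnr : n ≤ r + 1 := by omega
    refine Set.ncard_le_ncard ?_ (hfin _)
    rintro σ ⟨_, hc⟩
    refine ⟨hc, hsupp n (r + 1) σ ?_⟩
    refine hall n (r + 1) _ hnr ?_
    intro x hx
    obtain ⟨i, _, rfl⟩ := mem_image.mp hx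
    exact mem_range.mpr i.2

end Pool.Agent.W555.KS
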