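/-!
# Project KS: a proof of the Kalai-Sarkaria conjecture (helper555)

Targets: MP_dd083e_co (hard), S11781 = MP_d9740f_co (full), MP_55fadc_co (full).
All statements are in `Pool.Agent.W555.KS.Defs`.

## The proof in short

`L` complex on `[n]`, `F` a continuous map from the cone over `|L|` to `R^d` with `F x ≠ F y`
for disjointly supported `x, y` (not both 0): `ConeEmb L d`.

(1) `StFan`. The deleted join of `L` is the subcomplex of the boundary of the cross polytope in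
`R^n` of all `x` with `supp x⁺ ∈ L`, `supp x⁻ ∈ L`; `x ↦ F x⁺ - F x⁻` is odd and nonvanishing on it.
Ky Fan's lemma at chain level: every symmetric `d`-dimensional cycle `Z` (characteristic 2
coefficients) on the deleted join has alternating sum `∑_U Z(evenPart U, oddPart U) = 0`,
`|U| = d+1`.  This is `VK L (d+1)`.

(2) `StT1`. Let `A = k[L]/(θ_1..θ_d)`, `ω` one more linear form, `R` a quotient in which
`ω^(e+1) = 0`, `M : R → k` linear, `2 g = d + e + 1`. Then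
`Z(σ,τ) = [σ ∪ τ] M(ω^(g-|σ|) x_σ) M(ω^(g-|τ|) x_τ)` (`[ ]` = `bra` = determinant of the
coefficient matrix) is a symmetric cycle: at `(ρ,τ)` with `|ρ|+|τ| = d` both sums
`∑_v [ρ v τ] M(ω^(g-|ρ|-1) x_ρ x_v) M(ω^(g-|τ|) x_τ)` and the one with the roles exchanged equal
`[ρ τ]' M(ω^(g-|ρ|) x_ρ) M(ω^(g-|τ|) x_τ)` by `StExp`.

(3) `StAlg`, `StAlgO`. The alternating sum of `Z` is `∑_h (∏_i a_(i,h i)) M(ω^s x^(h/2))^2`, the sum
over all functions `h` from the rows to the vertices all of whose fibres are even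
(checked numerically). Proof: in `T = R ⊗ R` with `X_v = x_v ⊗ 1`, `X'_v = 1 ⊗ x_v`, and square
zero variables `e_i`, `l_v = ∑_i a_(iv) e_i`:
`∑_(|U| even) l_U X_(even U) X'_(odd U) = ∏_v (1 + (∑_(u<v) l_u X_u) l_v X'_v)` (`StPn`)
`= ∏_(u<v) (1 + l_u l_v X_u X'_v) = ∏_(i<j) (1 + e_i e_j P_ij)` (`StPl`), where
`P_ij = ∑_(u<v) (a_iu a_jv + a_ju a_iv) X_u X'_v = S_ij + G_ij + sw(G_ij)`,
`G_ij = ∑_(u<v) a_iu a_jv X_u X'_v`, `S_ij = ∑_v a_iv a_jv X_v X'_v`, `sw` = exchange of factors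
(because `(∑_v a_iv X_v)(∑_v a_jv X'_v) = 0` for `i < j`, row `i` not being the last one).
The functional `Φ = (M ⊗ M) ∘ (coefficient of e_1...e_m)` is `sw`-invariant, so
`Φ(Y e_i e_j (G + sw G)) = 0` for `sw`-invariant `Y`; hence `P_ij` may be replaced by `S_ij`
in all factors, and `∏_(i<j) (1 + e_i e_j S_ij) = ∏_v ∏_(i<j) (1 + e_i e_j a_iv a_jv X_v X'_v)
= ∏_v ∑_(S even) e_S a_(S,v) (X_v X'_v)^(|S|/2)` (`StEv`).

(4) `StInd`: squarefree monomials in the variables are linearly independent over the squares of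
`F_2(a)`. So for generic `a`: `M(ω^s x^β) = 0` for all `M`, i.e. `ω^s x^β = 0` in `R`:
for `d + 1 = 2q`: `ω^s A_q ⊂ ω^(2s+1) A` (all `s ≥ 0`); for `d = 2q`: `ω^s A_q ⊂ ω^(2s) A`, `s ≥ 1`.

(5) `StT2`. `d + 1 = 2 q`: `s = 0` gives `A_q = ω A_(q-1)`, so `A_(q+1) = A_1 A_q = A_1 ω A_(q-1)
= ω A_q`, hence `A_(q+s) = ω^s A_q = ω^(2s+1) A_(q-1-s)`.  `d = 2q`: `A_(q+1) = ω A_q` is `StT2C`
(cone), so `A_(q+s) = ω^s A_q = ω^(2s) A_(q-s)`. So `A_r = ω^(2r-d) A_(d-r)` for all `r > d/2`.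
This is the Kalai-Sarkaria conjecture.
-/
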